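import Pool.Agent.H81R3.Env.Rank

set_option autoImplicit false

/-!
# MP_e80488_al: characters of non-maximal height with too many simple modules

Let `k` be an algebraically closed field of characteristic two. The minimal `p`-envelope of the
simple Lie algebra `W(1; 3)^(2)` has a character `χ` of non-maximal height such that the reduced
enveloping algebra has at least four pairwise non-isomorphic simple modules, although
`2 ^ mt(W(1; 1)) = 2`.

All operators act on the divided power algebra `O(1; m)`. The definitions are in
`Pool/Agent/H81R3/Env/Defs.lean` and `Pool/Agent/Helper700/Red/Defs.lean`, the `p`-map of `W(1; 1)`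
in `Pool/Agent/H81R3/Env/W11.lean`.
-/

namespace Pool.Agent.Results.MP_e80488_al.CharTwoCounterexample

open Pool.Agent.H81R3.Wit Pool.Agent.Helper700.Red

universe u

theorem mono {A : Type u} [Ring A] {m n : ℕ} (h : m ≤ n) (hn : MoreSimplesThan A n) :
    MoreSimplesThan A m := by
  obtain ⟨M, i1, i2, h1, h2⟩ := hn
  have hmn : m + 1 ≤ n + 1 := by omega
  refine ⟨fun i => M (Fin.castLE hmn i), inferInstance, inferInstance, fun i => h1 _, ?_⟩
  intro i j hij
  exact h2 _ _ fun h => hij (Fin.castLE_injective hmn h)

/-- **Theorem.** Over every algebraically closed field of characteristic two: `W(1; 3)^(2)` is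
simple, `Env` with the squaring map is its minimal `p`-envelope, and there is a character of
non-maximal height whose reduced enveloping algebra has more than `2 ^ mt(W(1; 1))` (in fact at
least four, while `mt(W(1; 1)) = 1`) isomorphism classes of simple modules. -/
theorem result (k : Type u) [Field k] [IsAlgClosed k] [CharP k 2] :
    LieAlgebra.IsSimple k (W2Alg k 2 3) ∧
    IsMinimalPEnvelope (envP k 3) (incl k 2 3) ∧
    mtr (w11P k) = 1 ∧
    ∃ χ : Module.Dual k (EnvAlg k 2 3), height χ ≤ topDeg k 2 3 ∧
      MoreSimplesThan (RedEnv (envP k 3) χ) (2 ^ mtr (w11P k)) ∧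
      MoreSimplesThan (RedEnv (envP k 3) χ) 3 := by
  have h1 : LieAlgebra.IsSimple k (W2 k 2 3) := inferInstance
  have h2 : IsMinimalPEnvelope (envP0 k 3) (incl0 k 2 3) := env_minimal
  have h3 : MoreSimplesThan (RedEnv (envP0 k 3) (chi k)) 3 := four_simples k
  refine ⟨h1, h2, mtr_W11 k, chi k, ?_, ?_, h3⟩
  · rw [height_eq, topDeg_eq]
  · rw [mtr_W11]
    exact mono (by norm_num) h3

end Pool.Agent.Results.MP_e80488_al.CharTwoCounterexample
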